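import Pool.Agent.AEC.StmtsB

/-!
# Squad AEC, row LNG: change of vocabulary
-/

open FirstOrder FirstOrder.Language Cardinal Set

universe u

namespace Pool.Agent.AEC.H84

open Pool.Agent.AEC

/-- a bijection between the symbols of two vocabularies -/
structure Tr (L L0 : FirstOrder.Language.{u, u}) where
  f : ∀ n, L.Functions n ≃ L0.Functions n
  r : ∀ n, L.Relations n ≃ L0.Relations n

variable {L L0 : FirstOrder.Language.{u, u}}

/-- the set `M`, renamed -/
def Ren (_ : Tr L L0) (M : Type u) : Type u := M

variable (t : Tr L L0)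

instance renStr (M : Type u) [L0.Structure M] : L.Structure (Ren t M) where
  funMap {n} F x := @Structure.funMap L0 M _ n (t.f n F) x
  RelMap {n} R x := @Structure.RelMap L0 M _ n (t.r n R) x

/-- a renamed embedding -/
def renE {M N : Type u} [L0.Structure M] [L0.Structure N] (e : M ↪[L0] N) :
    Ren t M ↪[L] Ren t N where
  toFun := e
  inj' := e.injective
  map_fun' F x := e.map_fun (t.f _ F) x
  map_rel' R x := e.map_rel (t.r _ R) x

/-- a renamed isomorphism -/
def renQ {M N : Type u} [L0.Structure M] [L0.Structure N] (e : M ≃[L0] N) :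
    Ren t M ≃[L] Ren t N where
  toEquiv := e.toEquiv
  map_fun' F x := e.map_fun (t.f _ F) x
  map_rel' R x := e.map_rel (t.r _ R) x

/-- isomorphisms of the renamed structures -/
def unrQ {M N : Type u} [L0.Structure M] [L0.Structure N] (e : Ren t M ≃[L] Ren t N) :
    M ≃[L0] N where
  toEquiv := e.toEquiv
  map_fun' F x := by
    have h := e.map_fun ((t.f _).symm F) x
    have h1 : @Structure.funMap L (Ren t M) _ _ ((t.f _).symm F) x =
        @Structure.funMap L0 M _ _ F x := by
      change @Structure.funMap L0 M _ _ (t.f _ ((t.f _).symm F)) x = _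
      rw [Equiv.apply_symm_apply]
    have h2 : @Structure.funMap L (Ren t N) _ _ ((t.f _).symm F) (e ∘ x) =
        @Structure.funMap L0 N _ _ F (e ∘ x) := by
      change @Structure.funMap L0 N _ _ (t.f _ ((t.f _).symm F)) (e ∘ x) = _
      rw [Equiv.apply_symm_apply]
    rw [h1, h2] at h
    exact h
  map_rel' R x := by
    have h := e.map_rel ((t.r _).symm R) x
    have h1 : @Structure.RelMap L (Ren t M) _ _ ((t.r _).symm R) x ↔
        @Structure.RelMap L0 M _ _ R x := by
      change @Structure.RelMap L0 M _ _ (t.r _ ((t.r _).symm R)) x ↔ _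
      rw [Equiv.apply_symm_apply]
    have h2 : @Structure.RelMap L (Ren t N) _ _ ((t.r _).symm R) (e ∘ x) ↔
        @Structure.RelMap L0 N _ _ R (e ∘ x) := by
      change @Structure.RelMap L0 N _ _ (t.r _ ((t.r _).symm R)) (e ∘ x) ↔ _
      rw [Equiv.apply_symm_apply]
    rw [h1, h2] at h
    exact h

/-- substructures are the same -/
def renO (U : Type u) [L0.Structure U] : L0.Substructure U ≃o L.Substructure (Ren t U) where
  toFun S := ⟨(S : Set U), fun {n} F x hx => S.fun_mem (t.f n F) x hx⟩
  invFun S := ⟨(S : Set (Ren t U)), fun {n} F x hx => by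
    have h := S.fun_mem ((t.f n).symm F) x hx
    have h1 : @Structure.funMap L (Ren t U) _ _ ((t.f _).symm F) x =
        @Structure.funMap L0 U _ _ F x := by
      change @Structure.funMap L0 U _ _ (t.f _ ((t.f _).symm F)) x = _
      rw [Equiv.apply_symm_apply]
    rw [h1] at h
    exact h⟩
  left_inv S := by
    apply SetLike.coe_injective
    rfl
  right_inv S := by
    apply SetLike.coe_injective
    rfl
  map_rel_iff' := Iff.rfl

theorem emb_incl {κ : Cardinal.{u}} (K : AEC L κ) {U : Type u} [L.Structure U]
    {A B B' : L.Substructure U} (h : A ≤ B) (hB : B = B') :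
    K.emb (Substructure.inclusion h) ↔ K.emb (Substructure.inclusion (hB ▸ h : A ≤ B')) := by
  subst hB
  rfl

/-- the renamed class -/
def renK {κ : Cardinal.{u}} (K : AEC L κ) : AEC L0 κ where
  mem M _ := K.mem (Ren t M)
  emb f := K.emb (renE t f)
  card_le := by
    have h : L0.card = L.card := by
      unfold Language.card
      exact Cardinal.mk_congr (Equiv.sumCongr (Equiv.sigmaCongrRight t.f).symm
        (Equiv.sigmaCongrRight t.r).symm)
    rw [h]
    exact K.card_le
  aleph0_le := K.aleph0_le
  dom h := K.dom h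
  cod h := K.cod h
  iso h e := K.iso h (renQ t e)
  comp hf hg := K.comp hf hg
  coh hg hc := K.coh hg hc
  chain {U _ I _ _ _} S mono hS hlim i := by
    have h1 := K.chain (U := Ren t U) (fun i => renO t U (S i))
      (fun a b hab => (renO t U).monotone (mono hab)) hS
      (fun i hi => by
        have h := congrArg (renO t U) (hlim i hi)
        rw [OrderIso.map_iSup] at h
        exact h) i
    have h2 : (⨆ i, renO t U (S i)) = renO t U (⨆ i, S i) := by
      rw [OrderIso.map_iSup]
    rw [emb_incl K _ h2] at h1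
    exact h1
  smooth {N _ I _ _ _} S mono hS hlim := by
    have h1 := K.smooth (N := Ren t N) (fun i => renO t N (S i))
      (fun a b hab => (renO t N).monotone (mono hab)) hS
      (fun i hi => by
        have h := congrArg (renO t N) (hlim i hi)
        rw [OrderIso.map_iSup] at h
        exact h)
    have h2 : (⨆ i, renO t N (S i)) = renO t N (⨆ i, S i) := by
      rw [OrderIso.map_iSup]
    rw [h2] at h1
    exact h1
  ls {N _} hN A := by
    obtain ⟨S, h1, h2, h3⟩ := K.ls (N := Ren t N) hN A
    exact ⟨(renO t N).symm S, h1, h2, h3⟩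

/-- the structure for the new vocabulary -/
@[reducible] def back (M : Type u) [L.Structure M] : L0.Structure M where
  funMap {n} F x := @Structure.funMap L M _ n ((t.f n).symm F) x
  RelMap {n} R x := @Structure.RelMap L M _ n ((t.r n).symm R) x

theorem ren_back (M : Type u) [inst : L.Structure M] : @renStr L L0 t M (back t M) = inst := by
  apply Structure.ext
  · funext n F x
    change @Structure.funMap L M _ n ((t.f n).symm (t.f n F)) x = _
    rw [Equiv.symm_apply_apply]
    rfl
  · funext n R x
    change @Structure.RelMap L M _ n ((t.r n).symm (t.r n R)) x = _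
    rw [Equiv.symm_apply_apply]
    rfl

/-- an isomorphism for the new vocabulary is one for the old vocabulary -/
def backQ {M N : Type u} [iM : L.Structure M] [iN : L.Structure N]
    (e : @FirstOrder.Language.Equiv L0 M N (back t M) (back t N)) : M ≃[L] N where
  toEquiv := @FirstOrder.Language.Equiv.toEquiv L0 M N (back t M) (back t N) e
  map_fun' F x := by
    have h := @FirstOrder.Language.Equiv.map_fun' L0 M N (back t M) (back t N) e _ (t.f _ F) x
    change (@FirstOrder.Language.Equiv.toEquiv L0 M N (back t M) (back t N) e) (@Structure.funMap L M _ _ ((t.f _).symm (t.f _ F)) x) =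
      @Structure.funMap L N _ _ ((t.f _).symm (t.f _ F)) ((@FirstOrder.Language.Equiv.toEquiv L0 M N (back t M) (back t N) e) ∘ x) at h
    rw [Equiv.symm_apply_apply] at h
    exact h
  map_rel' R x := by
    have h := @FirstOrder.Language.Equiv.map_rel' L0 M N (back t M) (back t N) e _ (t.r _ R) x
    change @Structure.RelMap L N _ _ ((t.r _).symm (t.r _ R)) ((@FirstOrder.Language.Equiv.toEquiv L0 M N (back t M) (back t N) e) ∘ x) ↔
      @Structure.RelMap L M _ _ ((t.r _).symm (t.r _ R)) x at h
    rw [Equiv.symm_apply_apply] at h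
    exact h

variable {κ : Cardinal.{u}} (K : AEC L κ)

/-- a member of the renamed class -/
def toM (M : (renK t K).Mod) : K.Mod := ⟨Ren t M.α, M.prop⟩

/-- a member of the class -/
def ofM (M : K.Mod) : (renK t K).Mod :=
  @AEC.Mod.mk L0 κ (renK t K) M.α (back t M.α) (by
    change @AEC.mem L κ K M.α (@renStr L L0 t M.α (back t M.α))
    rw [ren_back]
    exact M.prop)

theorem core (l : Cardinal.{u}) : (K.Cat l ↔ (renK t K).Cat l) ∧
    ((∃ M : K.Mod, #M.α = l) ↔ ∃ M : (renK t K).Mod, #M.α = l) := by
  have hex : (∃ M : K.Mod, #M.α = l) ↔ ∃ M : (renK t K).Mod, #M.α = l :=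
    ⟨fun ⟨M, hM⟩ => ⟨ofM t K M, hM⟩, fun ⟨M, hM⟩ => ⟨toM t K M, hM⟩⟩
  refine ⟨⟨fun h => ⟨hex.1 h.1, fun M N hM hN => ?_⟩, fun h => ⟨hex.2 h.1, fun M N hM hN => ?_⟩⟩,
    hex⟩
  · obtain ⟨e⟩ := h.2 (toM t K M) (toM t K N) hM hN
    exact ⟨unrQ t e⟩
  · obtain ⟨e⟩ := h.2 (ofM t K M) (ofM t K N) hM hN
    exact ⟨backQ t e⟩

/-- LNG -/
theorem lng : LngStmt.{u} := by
  intro L κ K
  have hf : ∀ n, Nonempty (L.Functions n ↪ κ.out) := by
    intro n
    rw [← Cardinal.le_def, Cardinal.mk_out]
    refine le_trans ?_ K.card_le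
    unfold Language.card
    exact Cardinal.mk_le_of_injective (f := fun F : L.Functions n =>
      (Sum.inl ⟨n, F⟩ : L.Symbols)) (fun a b h => by
        have h1 := Sum.inl.inj h
        exact eq_of_heq (Sigma.mk.inj h1).2)
  have hr : ∀ n, Nonempty (L.Relations n ↪ κ.out) := by
    intro n
    rw [← Cardinal.le_def, Cardinal.mk_out]
    refine le_trans ?_ K.card_le
    unfold Language.card
    exact Cardinal.mk_le_of_injective (f := fun F : L.Relations n =>
      (Sum.inr ⟨n, F⟩ : L.Symbols)) (fun a b h => by
        have h1 := Sum.inr.inj h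
        exact eq_of_heq (Sigma.mk.inj h1).2)
  have f : ∀ n, L.Functions n ↪ κ.out := fun n => (hf n).some
  have r : ∀ n, L.Relations n ↪ κ.out := fun n => (hr n).some
  let t : Tr L (codeLang (fun n => Set.range (f n)) (fun n => Set.range (r n))) :=
    ⟨fun n => Equiv.ofInjective (f n) (f n).injective,
      fun n => Equiv.ofInjective (r n) (r n).injective⟩
  exact ⟨_, _, renK t K, core t K⟩

end Pool.Agent.AEC.H84
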