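import Pool.Agent.AEC.StmtsZ
import Pool.Agent.AEC.StmtsB

/-!
# Squad AEC, row SZP: extensions of prescribed size, local form
-/

open FirstOrder FirstOrder.Language Cardinal Set

universe u

namespace Pool.Agent.AEC.H84

open Pool.Agent.AEC

/-- SZP -/
theorem szp (hTRC : TrcStmt.{u}) (hDLM : DlmStmt.{u}) (hCCL : CclStmt.{u}) : SzpStmt.{u} := by
  intro L κ K M l hl hmax
  by_contra hno
  have hκ : ℵ₀ ≤ κ := K.aleph0_le
  have hκl : κ ≤ l := le_trans (self_le_add_left κ #M.α) hl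
  have hl0 : ℵ₀ ≤ l := hκ.trans hκl
  have hMl : #M.α ≤ l := le_trans (self_le_add_right #M.α κ) hl
  have hstep : ∀ (A : K.Mod) (_ : K.Hom M A), #A.α ≤ l →
      ∃ (B : K.Mod) (f : K.Hom A B), #B.α ≤ l ∧ ¬ Function.Surjective f := by
    intro A e hA
    have hlt : #A.α < l := lt_of_le_of_ne hA (fun h => hno ⟨A, e, h⟩)
    have h1 := hmax A e hlt
    unfold AEC.IsMax at h1
    push Not at h1
    obtain ⟨N', f', hf'⟩ := h1
    have hf2 : ∃ x : N'.α, ∀ a, f' a ≠ x := by
      by_contra hc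
      push Not at hc
      exact hf' hc
    obtain ⟨x, hx⟩ := hf2
    obtain ⟨S, hS1, hS2, hS3⟩ := K.ls N'.prop (Set.range f' ∪ {x})
    obtain ⟨f, hf⟩ := AEC.Hom.exists_factor f' (AEC.subHom N' S hS2)
      (fun a => ⟨⟨f' a, hS1 (Or.inl ⟨a, rfl⟩)⟩, rfl⟩)
    refine ⟨AEC.sub N' S hS2, f, ?_, ?_⟩
    · refine le_trans hS3 ?_
      refine le_trans (add_le_add (le_trans (Cardinal.mk_union_le _ _)
        (add_le_add (Cardinal.mk_range_le) (le_of_eq (Cardinal.mk_singleton x)))) le_rfl) ?_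
      have h2 : #A.α + 1 ≤ l := Cardinal.add_le_of_le hl0 hA (le_trans Cardinal.one_le_aleph0 hl0)
      exact Cardinal.add_le_of_le hl0 h2 hκl
    · intro hsurj
      obtain ⟨a, ha⟩ := hsurj ⟨x, hS1 (Or.inr rfl)⟩
      apply hx a
      rw [← hf a, ha]
      rfl
  have hJ : #l.ord.ToType = l := Cardinal.mk_ord_toType l
  have hne : Nonempty l.ord.ToType := by
    rw [← Cardinal.mk_ne_zero_iff, hJ]
    exact (lt_of_lt_of_le Cardinal.aleph0_pos hl0).ne'
  have hnm : NoMaxOrder l.ord.ToType := Cardinal.noMaxOrder hl0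
  obtain ⟨F, m, b, hm1, hm2, hb, hQ, hR⟩ := hTRC L κ K M (fun A => #A.α ≤ l)
    (fun A B _ f => ¬ Function.Surjective f) l.ord.ToType l
    (fun j => (Cardinal.mk_Iio_toType_ord_lt j).le) (hCCL L κ K l hl0).1 hMl
    (fun A e hA => hstep A e hA)
  obtain ⟨G, s, hs1, hs2⟩ := hDLM L κ K l.ord.ToType F m hm1 hm2
  have hG1 : #G.α ≤ l := by
    have h1 : Function.Surjective (fun p : Σ i, (F i).α => s p.1 p.2) := by
      intro y
      obtain ⟨i, x, hx⟩ := hs2 y
      exact ⟨⟨i, x⟩, hx⟩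
    refine le_trans (Cardinal.mk_le_of_surjective h1) ?_
    rw [Cardinal.mk_sigma]
    refine le_trans (Cardinal.sum_le_sum _ (fun _ => l) hQ) ?_
    rw [Cardinal.sum_const', hJ]
    exact (Cardinal.mul_eq_self hl0).le
  have hcov : ∀ i : l.ord.ToType, ∃ j, i ⋖ j := by
    intro i
    let _ := SuccOrder.ofLinearWellFoundedLT l.ord.ToType
    exact ⟨Order.succ i, Order.covBy_succ i⟩
  choose c hc using hcov
  have hy : ∀ i, ∃ y : (F (c i)).α, ∀ x, m i (c i) (hc i).le x ≠ y := by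
    intro i
    have h1 := hR i (c i) (hc i)
    by_contra hcon
    push Not at hcon
    exact h1 hcon
  choose y hy using hy
  have hlt : ∀ i i', i < i' → s (c i) (y i) ≠ s (c i') (y i') := by
    intro i i' hii' heq
    have h1 : c i ≤ i' := by
      by_contra hcon
      exact (hc i).2 hii' (not_le.1 hcon)
    have h2 : s (c i) (y i) = s (c i') (m i' (c i') (hc i').le (m (c i) i' h1 (y i))) := by
      rw [hs1, hs1]
    rw [h2] at heq
    exact hy i' _ ((s (c i')).injective heq)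
  have hinj : Function.Injective (fun i => s (c i) (y i)) := by
    intro i i' heq
    rcases lt_trichotomy i i' with h | h | h
    · exact absurd heq (hlt i i' h)
    · exact h
    · exact absurd heq.symm (hlt i' i h)
  have hG2 : l ≤ #G.α := by
    rw [← hJ]
    exact Cardinal.mk_le_of_injective hinj
  obtain ⟨j⟩ := hne
  exact hno ⟨G, (s j).comp (b j), le_antisymm hG1 hG2⟩

end Pool.Agent.AEC.H84
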