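import Pool.Agent.AEC.StmtsS

/-!
# Squad AEC, row S_AUT: isomorphisms and components
-/

set_option autoImplicit false

open FirstOrder FirstOrder.Language Cardinal Set

universe u

namespace Pool.Agent.AEC.S.H84

section

variable {L : FirstOrder.Language.{u, u}} {M N : Type u} [L.Structure M] [L.Structure N]

theorem adj_map (e : M ≃[L] N) {x y : M} (h : adj L x y) : adj L (e x) (e y) := by
  obtain ⟨hne, n, R, v, hv, ⟨i, hi⟩, ⟨j, hj⟩⟩ := h
  exact ⟨fun h => hne (e.injective h), n, R, fun i => e (v i), (e.map_rel R v).2 hv,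
    ⟨i, congrArg e hi⟩, ⟨j, congrArg e hj⟩⟩

theorem adj_iff (e : M ≃[L] N) (x y : M) : adj L (e x) (e y) ↔ adj L x y := by
  constructor
  · intro h
    have h1 := adj_map e.symm h
    rw [e.symm_apply_apply, e.symm_apply_apply] at h1
    exact h1
  · exact adj_map e

theorem adj_symm {x y : M} (h : adj L x y) : adj L y x := by
  obtain ⟨hne, n, R, v, hv, hx, hy⟩ := h
  exact ⟨hne.symm, n, R, v, hv, hy, hx⟩

theorem con_map (e : M ≃[L] N) {T : Set M} {x y : M} (h : con L T x y) :
    con L (e '' T) (e x) (e y) := by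
  induction h with
  | refl => exact Relation.ReflTransGen.refl
  | tail _ h ih =>
    refine Relation.ReflTransGen.tail ih ⟨adj_map e h.1, ?_⟩
    rintro ⟨c, hc, hcb⟩
    rw [e.injective hcb] at hc
    exact h.2 hc

theorem con_not_mem {T : Set M} {x y : M} (hx : x ∉ T) (h : con L T x y) : y ∉ T := by
  induction h with
  | refl => exact hx
  | tail _ h _ => exact h.2

theorem con_symm {T : Set M} {x y : M} (hx : x ∉ T) (h : con L T x y) : con L T y x := by
  induction h with
  | refl => exact Relation.ReflTransGen.refl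
  | @tail b c hb hbc ih =>
    exact Relation.ReflTransGen.head ⟨adj_symm hbc.1, con_not_mem hx hb⟩ ih

theorem sv_iff (e : M ≃[L] N) (κ : Cardinal.{u}) (x : M) : e x ∈ Sv L κ N ↔ x ∈ Sv L κ M := by
  have h : #{y : M // adj L x y} = #{y : N // adj L (e x) y} :=
    Cardinal.mk_congr (e.toEquiv.subtypeEquiv fun y => (adj_iff e x y).symm)
  change κ < #{y : N // adj L (e x) y} ↔ κ < #{y : M // adj L x y}
  rw [h]

theorem xv_iff (e : M ≃[L] N) (κ : Cardinal.{u}) (x : M) : e x ∈ Xv L κ N ↔ x ∈ Xv L κ M := by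
  have h : #{y : M // ∃ g : M ≃[L] M, g x = y} = #{y : N // ∃ g : N ≃[L] N, g (e x) = y} := by
    refine Cardinal.mk_congr (e.toEquiv.subtypeEquiv fun y => ?_)
    constructor
    · rintro ⟨g, hg⟩
      refine ⟨(e.comp g).comp e.symm, ?_⟩
      change e (g (e.symm (e x))) = e y
      rw [e.symm_apply_apply, hg]
    · rintro ⟨g, hg⟩
      refine ⟨(e.symm.comp g).comp e, ?_⟩
      change e.symm (g (e x)) = y
      rw [hg]
      exact e.symm_apply_apply y
  change #{y : N // ∃ g : N ≃[L] N, g (e x) = y} ≤ κ ↔ #{y : M // ∃ g : M ≃[L] M, g x = y} ≤ κ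
  rw [h]

theorem image_eq (e : M ≃[L] N) (A : Set M) (B : Set N) (h : ∀ x, e x ∈ B ↔ x ∈ A) :
    e '' A = B := by
  ext y
  constructor
  · rintro ⟨x, hx, rfl⟩
    exact (h x).2 hx
  · intro hy
    refine ⟨e.symm y, ?_, e.apply_symm_apply y⟩
    rw [← h, e.apply_symm_apply]
    exact hy

end

/-- S_AUT -/
theorem s_aut : AutStmt.{u} := by
  intro L κ M N _ _ e
  refine ⟨adj_iff e, image_eq e _ _ (sv_iff e κ), image_eq e _ _ (xv_iff e κ), ?_, ?_⟩
  · intro T x
    apply image_eq
    intro y
    change con L (e '' T) (e x) (e y) ↔ con L T x y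
    constructor
    · intro h
      have h1 := con_map e.symm h
      have h2 : e.symm '' (e '' T) = T := by
        apply image_eq
        intro z
        constructor
        · intro hz
          exact ⟨_, hz, e.apply_symm_apply z⟩
        · rintro ⟨w, hw, rfl⟩
          rw [e.symm_apply_apply]
          exact hw
      rw [h2, e.symm_apply_apply, e.symm_apply_apply] at h1
      exact h1
    · exact con_map e
  · intro T x y hx _ h
    exact con_symm hx h

end Pool.Agent.AEC.S.H84
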