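import Pool.Agent.AEC.StmtsS

/-!
# Squad AEC, row S_EXA: forests up to small sets are sparse
-/

set_option autoImplicit false

open FirstOrder FirstOrder.Language Cardinal Set

universe u

namespace Pool.Agent.AEC.S.H84

/-- S_EXA -/
theorem s_exa : ExaStmt.{u} := by
  intro L κ N _ hκ hD Z hZ
  classical
  by_contra hcon
  push Not at hcon
  have hne : Z.Nonempty := by
    by_contra h
    rw [Set.not_nonempty_iff_eq_empty] at h
    rw [h] at hZ
    simp at hZ
  obtain ⟨x₀, hx₀⟩ := hne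
  obtain ⟨D, hDc, hac⟩ := hD x₀
  have hZU : ∀ y ∈ Z, y ∉ D → y ∈ {y | y ∈ cmp L (∅ : Set N) x₀ ∧ y ∉ D} := fun y hy hyD =>
    ⟨hcon x₀ hx₀ y hy ∅ (by simp) (by simp) (by simp), hyD⟩
  revert hZU hac
  have hwalk : ∀ (U : Set N), U = {y | y ∈ cmp L (∅ : Set N) x₀ ∧ y ∉ D} →
      ∀ (T : Set N) (x y : N) (hx : x ∈ U), x ∉ T → D ⊆ T → con L T x y →
      ∃ (hy : y ∈ U) (q : ((gg L N).induce U).Walk ⟨x, hx⟩ ⟨y, hy⟩),
        ∀ v ∈ q.support, v.1 ∉ T := by
    intro U hU T x y hx hxT hDT h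
    induction h with
    | refl =>
      refine ⟨hx, .nil, ?_⟩
      intro v hv
      rw [SimpleGraph.Walk.support_nil, List.mem_singleton] at hv
      rw [hv]
      exact hxT
    | @tail b c hb hbc ih =>
      obtain ⟨hbU, q, hq⟩ := ih
      have hbU' := hbU
      rw [hU] at hbU'
      have hc : c ∈ U := by
        rw [hU]
        exact ⟨Relation.ReflTransGen.tail hbU'.1 ⟨hbc.1, by simp⟩, fun h => hbc.2 (hDT h)⟩
      refine ⟨hc, q.concat (show ((gg L N).induce U).Adj ⟨b, hbU⟩ ⟨c, hc⟩ from hbc.1), ?_⟩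
      intro v hv
      rw [SimpleGraph.Walk.support_concat, List.mem_append, List.mem_singleton] at hv
      rcases hv with hv | hv
      · exact hq v hv
      · rw [hv]
        exact hbc.2
  have hwalk := hwalk _ rfl
  generalize {y | y ∈ cmp L (∅ : Set N) x₀ ∧ y ∉ D} = U at hwalk ⊢
  intro hac hZU
  have huniq : ∀ (v w : U) (p q : ((gg L N).induce U).Path v w), p = q := fun v w p q =>
    (hac.subsingleton_path v w).elim p q
  -- two points which are not adjacent
  have h2 : ∃ x ∈ Z, ∃ y ∈ Z, x ∉ D ∧ y ∉ D ∧ x ≠ y ∧ ¬ adj L x y := by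
    by_contra h
    push Not at h
    have h3 : κ < #(Z \ D : Set N) := by
      by_contra h4
      rw [not_lt] at h4
      have h5 : #Z ≤ #(Z \ D : Set N) + #D := by
        refine (Cardinal.mk_le_mk_of_subset ?_).trans (Cardinal.mk_union_le (Z \ D) D)
        intro z hz
        by_cases hzD : z ∈ D
        · exact Or.inr hzD
        · exact Or.inl ⟨hz, hzD⟩
      exact absurd (h5.trans ((add_le_add h4 hDc).trans (Cardinal.add_eq_self hκ).le))
        (not_le.2 hZ)
    have h4 : (Z \ D).Infinite := by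
      rw [← Set.infinite_coe_iff, Cardinal.infinite_iff]
      exact hκ.trans h3.le
    obtain ⟨t, ht, htc⟩ := h4.exists_subset_card_eq 3
    obtain ⟨a, b, c, hab, hac', hbc, rfl⟩ := Finset.card_eq_three.1 htc
    have ha : a ∈ Z \ D := ht (by simp)
    have hb : b ∈ Z \ D := ht (by simp)
    have hc : c ∈ Z \ D := ht (by simp)
    have e1 := h a ha.1 b hb.1 ha.2 hb.2 hab
    have e2 := h b hb.1 c hc.1 hb.2 hc.2 hbc
    have e3 := h a ha.1 c hc.1 ha.2 hc.2 hac'
    have ua := hZU a ha.1 ha.2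
    have ub := hZU b hb.1 hb.2
    have uc := hZU c hc.1 hc.2
    have g1 : ((gg L N).induce U).Adj ⟨a, ua⟩ ⟨b, ub⟩ := e1
    have g2 : ((gg L N).induce U).Adj ⟨b, ub⟩ ⟨c, uc⟩ := e2
    have g3 : ((gg L N).induce U).Adj ⟨a, ua⟩ ⟨c, uc⟩ := e3
    have p1 : (SimpleGraph.Walk.cons g1 (SimpleGraph.Walk.cons g2 SimpleGraph.Walk.nil)).IsPath := by
      rw [SimpleGraph.Walk.isPath_def]
      simp [hab, hac', hbc]
    have p2 : (SimpleGraph.Walk.cons g3 SimpleGraph.Walk.nil).IsPath := by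
      rw [SimpleGraph.Walk.isPath_def]
      simp [hac']
    have h5 := congrArg (fun p => p.1.length) (huniq _ _ ⟨_, p1⟩ ⟨_, p2⟩)
    simp at h5
  obtain ⟨x, hx, y, hy, hxD, hyD, hxy, hna⟩ := h2
  obtain ⟨uy, q, -⟩ := hwalk D x y (hZU x hx hxD) hxD subset_rfl (hcon x hx y hy D hDc hxD hyD)
  -- a third vertex of the path
  have h3 : ∃ z ∈ q.toPath.1.support, z.1 ≠ x ∧ z.1 ≠ y := by
    generalize q.toPath = p
    obtain ⟨p, hp⟩ := p
    cases p with
    | nil => exact absurd rfl hxy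
    | @cons _ z _ h p =>
      refine ⟨z, ?_, ?_, ?_⟩
      · rw [SimpleGraph.Walk.support_cons]
        exact List.mem_cons_of_mem _ p.start_mem_support
      · intro h4
        exact h.1 h4.symm
      · intro h4
        apply hna
        rw [← h4]
        exact h
  obtain ⟨z, hz, hzx, hzy⟩ := h3
  obtain ⟨uy', q', hq'⟩ := hwalk (D ∪ {z.1}) x y (hZU x hx hxD)
    (by rintro (h | h); exact hxD h; exact hzx (Set.mem_singleton_iff.1 h).symm)
    Set.subset_union_left (hcon x hx y hy (D ∪ {z.1})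
      (by
        refine (Cardinal.mk_union_le _ _).trans ?_
        rw [Cardinal.mk_singleton]
        exact Cardinal.add_le_of_le hκ hDc (Cardinal.one_lt_aleph0.le.trans hκ))
      (by rintro (h | h); exact hxD h; exact hzx (Set.mem_singleton_iff.1 h).symm)
      (by rintro (h | h); exact hyD h; exact hzy (Set.mem_singleton_iff.1 h).symm))
  have h4 := huniq _ _ q.toPath q'.toPath
  rw [h4] at hz
  exact hq' z (q'.support_toPath_subset_support hz) (Or.inr rfl)

end Pool.Agent.AEC.S.H84
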